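import Mathlib
import Pool.Agent.W670.ML.Defs

/-! ML-AB: subfields of an algebraic closure of the rationals, counted by their groups. -/

set_option autoImplicit false

namespace Pool.Agent.W168.ML

open NumberField Pool.Agent.W670.ML

theorem fields_finite (h3 : S_HE) (h4 : S_DI) (N : ℕ) (H : Subgroup (Equiv.Perm (Fin N)))
    (Y : ℝ) : (fields ℚ N H Y).Finite := by
  refine (h3 (AlgebraicClosure ℚ) Y).subset ?_
  rintro M ⟨-, hM, hle⟩
  refine ⟨hM, ?_⟩
  rw [h4.2.1 M]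
  exact hle

theorem gen (K Ω : Type) [Field K] [NumberField K] [Field Ω] [Algebra K Ω] [IsAlgClosure K Ω]
    (N : ℕ) (s : Finset (Subgroup (Equiv.Perm (Fin N)))) (S : Set (IntermediateField K Ω)) (Y : ℝ)
    (hfin : ∀ H, (fields K N H Y).Finite)
    (hS : ∀ M ∈ S, ∃ H ∈ s,
      M.map (IsAlgClosure.equiv K Ω (AlgebraicClosure K)).toAlgHom ∈ fields K N H Y) :
    S.ncard ≤ ∑ H ∈ s, Pool.Agent.W670.ML.N K N H Y := by
  have hΦ : Function.Injective (IntermediateField.map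
    (IsAlgClosure.equiv K Ω (AlgebraicClosure K)).toAlgHom) :=
    IntermediateField.map_injective _
  have hsub : IntermediateField.map
      (IsAlgClosure.equiv K Ω (AlgebraicClosure K)).toAlgHom '' S
      ⊆ ⋃ H ∈ s, fields K N H Y := by
    rintro _ ⟨M, hM, rfl⟩
    obtain ⟨H, hH, hmem⟩ := hS M hM
    exact Set.mem_iUnion₂.2 ⟨H, hH, hmem⟩
  have hfinU : (⋃ H ∈ s, fields K N H Y).Finite :=
    Set.Finite.biUnion s.finite_toSet (fun H _ => hfin H)
  calc S.ncard = (IntermediateField.map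
      (IsAlgClosure.equiv K Ω (AlgebraicClosure K)).toAlgHom '' S).ncard :=
        (Set.ncard_image_of_injective S hΦ).symm
    _ ≤ (⋃ H ∈ s, fields K N H Y).ncard := Set.ncard_le_ncard hsub hfinU
    _ ≤ ∑ H ∈ s, (fields K N H Y).ncard := Finset.set_ncard_biUnion_le _ _
    _ = ∑ H ∈ s, Pool.Agent.W670.ML.N K N H Y := rfl

/-- the isomorphism onto the image -/
noncomputable def isoAC (K Ω : Type) [Field K] [Field Ω] [Algebra K Ω] [IsAlgClosure K Ω]
    (M : IntermediateField K Ω) :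
    ↥M ≃+* ↥(M.map (IsAlgClosure.equiv K Ω (AlgebraicClosure K)).toAlgHom) :=
  (IntermediateField.equivMap M (IsAlgClosure.equiv K Ω (AlgebraicClosure K)).toAlgHom).toRingEquiv

theorem ab (h1 : S_TR) (h2 : S_EX) (h3 : S_HE) (h4 : S_DI) : S_AB := by
  classical
  intro N m Ω _ _ _ hN S Y hS
  have hfin : S.Finite := by
    refine (h3 Ω Y).subset ?_
    intro M hM
    exact (hS M hM).2.1
  refine ⟨hfin, ?_⟩
  refine gen ℚ Ω N (bigInd N m) S Y (fun H => fields_finite h3 h4 N H Y) ?_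
  intro M hM
  obtain ⟨hfr, ⟨hNF, hdisc⟩, hind⟩ := hS M hM
  obtain ⟨H, hHt, hHG⟩ := h2 Ω N M hN hfr
  have hHmem : H ∈ bigInd N m := by
    unfold bigInd
    rw [Finset.mem_filter]
    exact ⟨Finset.mem_univ _, hHt, hind H hHG⟩
  refine ⟨H, hHmem, h1 ℚ Ω (AlgebraicClosure ℚ) _ N H M hHG, ?_⟩
  have hNF' := NumberField.of_ringEquiv _ _ (isoAC ℚ Ω M)
  refine ⟨hNF', ?_⟩
  have h5 := discr_eq_discr_of_ringEquiv _ (isoAC ℚ Ω M)
  have h7 := h4.2.1
  have h6 := @h7 _ _ hNF' (IntermediateField.algebra' _)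
  rw [← h5] at h6
  rw [h6] at hdisc
  exact hdisc

end Pool.Agent.W168.ML
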